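import Pool.Agent.E8helper50.SR.S4

/-! Piece MF2. -/

set_option autoImplicit false

universe u

namespace Pool.Agent.E8helper79.SR

open Pool.Agent.E8helper50.SR

theorem t_MF2 : S_AS2.{u} → S_BC.{u} → S_RS.{u} → S_MF2.{u} := by
  intro hAS hBC hRS F _ A _
  obtain ⟨A', hfin, hiff⟩ := hBC F (AlgebraicClosure F) A
  obtain ⟨N, hN⟩ := @hAS (AlgebraicClosure F) _ _ A' hfin
  refine ⟨N, fun f hf => ?_⟩
  have hf' : ¬ Sat A' f.map := fun h => hf ((hiff f).2 h)
  obtain ⟨M, hM, x, hx, w, hw⟩ := hN f.map hf'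
  obtain ⟨M', e, he, heg, hS, hev⟩ := hRS F (AlgebraicClosure F) M
  refine ⟨M', fun g hg => hS g (hM g.map ((hiff g).1 hg)), fun i => e (x i),
    fun i => heg _ _ (hx i), w, ?_⟩
  have h1 : ∀ v : FreeSemigroup (Fin N ⊕ Fin 1), FreeSemigroup.lift (fun i => e (x i)) v =
      e (FreeSemigroup.lift x v) := by
    intro v
    induction v using FreeSemigroup.recOnMul with
    | ih1 a => simp only [FreeSemigroup.lift_of]
    | ih2 a v h1 h2 => rw [map_mul, map_mul, map_mul, h1, h2]
  intro h3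
  apply hw
  apply he
  rw [map_zero]
  refine (hev f _ _).trans (Eq.trans ?_ h3)
  exact congrArg (sev f _) (funext fun i => (h1 (w i)).symm)

end Pool.Agent.E8helper79.SR
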